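import Pool.Agent.Lib.MP_71630c_lc.Th.Fib

/-! The lower bound for refutations in which a fraction `1 / N` of the variables is not repeated,
and the size separation. -/

set_option autoImplicit false

namespace Pool.Agent.Lib.MP_71630c_lc.Th

open Finset

set_option linter.unusedSectionVars false

theorem arith_hh {q K p : ℕ} (hq : 1 ≤ q) (hK : 1 ≤ K) (hp : 40 * q * K ^ 2 ≤ p) :
    (8 * q * p * K + 1) * (4 * K) ≤ p * p := by
  have h1 : 40 * q * K ^ 2 * p ≤ p * p := Nat.mul_le_mul_right _ hp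
  have h2 : 1 ≤ p := le_trans (by nlinarith [Nat.mul_le_mul hq hK]) hp
  have h3 : K ≤ q * K ^ 2 * p := by
    calc K = 1 * (K * 1) * 1 := by ring
      _ ≤ q * (K * K) * p := by gcongr
      _ = q * K ^ 2 * p := by ring
  nlinarith

theorem arith_narrow {q K p l : ℕ} (hq : 1 ≤ q) (hK : 1 ≤ K) (hp : 40 * q * K ≤ p)
    (hl : l + (4 * q * K + 1) = q * p)
    (h : (4 * K * l) ^ 2 ≤ (q + 1) * (K * p) * (4 * K * (q * p) + 4 * K * (4 * K) * q)) :
    False := by
  have h7 : (K * K) * (16 * l ^ 2) ≤ (K * K) * ((q + 1) * (q * p) * (4 * p + 16 * K)) := by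
    calc (K * K) * (16 * l ^ 2) = (4 * K * l) ^ 2 := by ring
      _ ≤ _ := h
      _ = _ := by ring
  have h8 := Nat.le_of_mul_le_mul_left h7 (by positivity)
  have hK' : 40 * K ≤ p := le_trans (by nlinarith) hp
  have hqK : 1 ≤ q * K := Nat.mul_pos hq hK
  have a1 : 40 * (q * K) ≤ q * p := by nlinarith
  obtain ⟨u, hu⟩ : ∃ u, u = q * p := ⟨_, rfl⟩
  have a2 : 7 * u ≤ 8 * l := by nlinarith
  have a3 : 0 < u := by nlinarith
  have a4 : (q + 1) * (4 * p + 16 * K) * 5 ≤ 44 * u := by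
    calc (q + 1) * (4 * p + 16 * K) * 5 = (q + 1) * (20 * p + 2 * (40 * K)) := by ring
      _ ≤ (2 * q) * (20 * p + 2 * p) := by gcongr; omega
      _ = 44 * u := by rw [hu]; ring
  have a5 : 80 * l ^ 2 ≤ 44 * (u * u) := by
    calc 80 * l ^ 2 = 5 * (16 * l ^ 2) := by ring
      _ ≤ 5 * ((q + 1) * (q * p) * (4 * p + 16 * K)) := Nat.mul_le_mul_left _ h8
      _ = u * ((q + 1) * (4 * p + 16 * K) * 5) := by rw [hu]; ring
      _ ≤ u * (44 * u) := Nat.mul_le_mul_left _ a4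
      _ = 44 * (u * u) := by ring
  have a6 : (7 * u) ^ 2 ≤ (8 * l) ^ 2 := Nat.pow_le_pow_left a2 2
  nlinarith

theorem arith_final {q N K p l Y₁ Y₂ I : ℕ} (hq : 1 ≤ q) (hN : q + 1 = 4 * N) (hK : 1 ≤ K)
    (hp : 40 * q * K ≤ p) (hl : l + (4 * q * K + 1) = q * p)
    (c1 : l ^ 2 ≤ (q + 1) * Y₁) (c2 : l ^ 2 ≤ (q + 1) * ((q + 1) * (K * p) + Y₂))
    (c3 : Y₁ + Y₂ ≤ q * (p * p) + I)
    (c4 : N * I + (q + 1) * (p * p) ≤ N * ((q + 1) * (p * p))) : False := by
  have hqK : 1 ≤ q * K := Nat.mul_pos hq hK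
  have hp0 : 0 < p := by nlinarith
  have a1 : (q + 1) * I + 4 * ((q + 1) * (p * p)) ≤ (q + 1) * ((q + 1) * (p * p)) := by
    calc (q + 1) * I + 4 * ((q + 1) * (p * p)) = 4 * (N * I + (q + 1) * (p * p)) := by
          rw [mul_add 4, ← mul_assoc 4 N I, ← hN]
      _ ≤ 4 * (N * ((q + 1) * (p * p))) := Nat.mul_le_mul_left _ c4
      _ = (q + 1) * ((q + 1) * (p * p)) := by rw [← mul_assoc 4 N, ← hN]
  have a2 : (q + 1) * (Y₁ + Y₂) ≤ (q + 1) * (q * (p * p) + I) := Nat.mul_le_mul_left _ c3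
  have a3 : (q * p) ^ 2 ≤ l ^ 2 + 10 * (q * q * (K * p)) := by
    have b1 : (q * p) ^ 2 ≤ l ^ 2 + 2 * (4 * q * K + 1) * (q * p) := by
      rw [← hl]; nlinarith
    have b2 : 2 * (4 * q * K + 1) * (q * p) ≤ 2 * (5 * (q * K)) * (q * p) := by
      gcongr; nlinarith
    nlinarith
  have a4 : (q + 3) * (p * p) ≤ 20 * (q * q * (K * p)) + (q + 1) * (q + 1) * (K * p) := by
    nlinarith
  have a5 : (q + 1) * (q + 1) * (K * p) ≤ (2 * q) * (2 * q) * (K * p) := by
    gcongr <;> omega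
  have a6 : q * p * (40 * q * K) ≤ q * p * p := Nat.mul_le_mul_left _ hp
  have a7 : 0 < p * p := by positivity
  nlinarith

variable {V : Type} [DecidableEq V] [Fintype V] (p : ℕ) [Fact p.Prime] {q : ℕ}
  (e : V ≃ (ZMod p × ZMod p) × Fin (q + 1))

theorem lower_boundq (N K : ℕ) (hN : q + 1 = 4 * N) (hK : 1 ≤ K) (hp : 40 * q * K ^ 2 ≤ p) {s : ℕ}
    (C : Fin (s + 1) → Finset (V × Bool)) (w : Fin (s + 1) → Option (Fin (s + 1) × Fin (s + 1) × V))
    (hlast : C (Fin.last s) = ∅)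
    (hw : IsWitness (form (8 * q * p * K) (4 * K) (gamq p e (4 * K))) s C w)
    (hreg : ∀ l, IsPath w (Fin.last s) l →
      N * (univ.filter fun x : V => 2 ≤ l.count x).card + Fintype.card V ≤ N * Fintype.card V) :
    (2 * q + 2) ^ (K * p) ≤ (s + 1) * (2 * q + 1) ^ (K * p) := by
  by_contra hcon
  obtain ⟨ρ, hρ⟩ := exists_restrictionq e C (K * p) (not_le.mp hcon)
  have hq : 1 ≤ q := by omega
  have hqK : 1 ≤ q * K := Nat.mul_pos hq hK
  have hKp : 40 * q * K ≤ p := le_trans (by nlinarith) hp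
  have hh := arith_hh hq hK hp
  have hsg : 4 * q * K + 1 < q * p := by nlinarith
  obtain ⟨l, hl⟩ : ∃ l, l + (4 * q * K + 1) = q * p := ⟨q * p - (4 * q * K + 1), by omega⟩
  have hvars : ∀ (i : Fin (s + 1)) (a : V → Bool), Fals a (C i) →
      (∀ y ∈ rsetq e ρ, a y = (ρ (e y).1).2) → (vars (C i)).card ≤ (q + 1) * (K * p) := by
    intro i a h1 h2
    have h3 := hρ i fun z hz h => h1 z hz (by
      rw [h2 z.1 ((mem_rsetq e).mpr (by rw [h])), h])
    refine (card_le_card (vars_subset_fibq e _)).trans ?_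
    rw [card_fibq]
    exact Nat.mul_le_mul_left _ h3.le
  let S : Setup V :=
    { h := 8 * q * p * K, W := 4 * K, sg := 4 * q * K + 1, lam := q, s := s,
      G := gamq p e (4 * K), R := rsetq e ρ, r := fun y => (ρ (e y).1).2, C := C, w := w,
      wit := hw, last := hlast
      overlap := fun u hu v hv huv => overlapq p e hh ρ hu hv huv
      hsg := by nlinarith
      big := by
        intro v _
        rw [gamq, card_fibq_sdiff, card_line]
        exact hsg
      narrow := by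
        intro i a h1 h2
        by_contra h3
        obtain ⟨T, hT1, hT2⟩ := exists_subset_card_eq (not_lt.mp h3)
        have h4 := near_boundq p e hh hl ρ _ T hT1
        have h5 := (card_le_card (sdiff_subset (t := rsetq e ρ))).trans (hvars i a h1 h2)
        have h6 := h4.trans (Nat.mul_le_mul_right _ h5)
        rw [hT2] at h6
        exact arith_narrow hq hK hKp hl h6 }
  obtain ⟨m₁, m₂, m₃, j, a, hpath, ha1, ha2, ⟨T₁, hT1, hT2⟩, T₂, hU1, hU2⟩ :=
    Setup.two_phases (S := S) (q * p)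
      (by show 2 * (q * p) * (4 * K) ≤ 8 * q * p * K; exact le_of_eq (by ring))
  have b1 := near_boundq p e hh hl ρ _ T₁ hT1
  have b2 := near_boundq p e hh hl ρ _ T₂ hU1
  rw [hT2] at b1
  rw [hU2] at b2
  have hp0 : 0 < q * p := by omega
  have red : ∀ Y : ℕ, (q * p * l) ^ 2 ≤ Y * (q * p * (q * p) + q * p * (q * p) * q) →
      l ^ 2 ≤ (q + 1) * Y := by
    intro Y hY
    have : (q * p * (q * p)) * l ^ 2 ≤ (q * p * (q * p)) * ((q + 1) * Y) := by
      calc (q * p * (q * p)) * l ^ 2 = (q * p * l) ^ 2 := by ring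
        _ ≤ _ := hY
        _ = _ := by ring
    exact Nat.le_of_mul_le_mul_left this (by positivity)
  have c1 := red _ b1
  have c2 := red _ b2
  have c3 : ((vars (C j) ∪ m₂.toFinset) \ rsetq e ρ).card ≤
      (q + 1) * (K * p) + (m₂.toFinset \ rsetq e ρ).card := by
    rw [union_sdiff_distrib]
    refine (card_union_le _ _).trans (Nat.add_le_add_right ?_ _)
    exact (card_le_card sdiff_subset).trans (hvars j a ha1 ha2)
  have c4 := card_union_add_card_inter (m₁.toFinset \ rsetq e ρ) (m₂.toFinset \ rsetq e ρ)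
  have c5 : ((m₁.toFinset \ rsetq e ρ) ∪ (m₂.toFinset \ rsetq e ρ)).card ≤ q * (p * p) := by
    have : (m₁.toFinset \ rsetq e ρ) ∪ (m₂.toFinset \ rsetq e ρ) ⊆ fibq e univ \ rsetq e ρ := by
      rw [← union_sdiff_distrib]
      exact sdiff_subset_sdiff (fun y _ => (mem_fibq e).mpr (mem_univ _)) subset_rfl
    refine (card_le_card this).trans ?_
    rw [card_fibq_sdiff, card_univ, Fintype.card_prod, ZMod.card]
  have c6 : ((m₁.toFinset \ rsetq e ρ) ∩ (m₂.toFinset \ rsetq e ρ)).card ≤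
      (univ.filter fun x : V => 2 ≤ (m₁ ++ (m₂ ++ m₃)).count x).card := by
    apply card_le_card
    intro x hx
    obtain ⟨h1, h2⟩ := mem_inter.mp hx
    have h3 := List.count_pos_iff.mpr (List.mem_toFinset.mp (mem_sdiff.mp h1).1)
    have h4 := List.count_pos_iff.mpr (List.mem_toFinset.mp (mem_sdiff.mp h2).1)
    refine mem_filter.mpr ⟨mem_univ _, ?_⟩
    rw [List.count_append, List.count_append]
    omega
  have c7 := hreg _ hpath
  have c8 : Fintype.card V = (q + 1) * (p * p) := by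
    rw [Fintype.card_congr e, Fintype.card_prod, Fintype.card_prod, ZMod.card, Fintype.card_fin,
      mul_comm]
  rw [c8] at c7
  change l ^ 2 ≤ (q + 1) * ((vars (C j) ∪ m₂.toFinset) \ rsetq e ρ).card at c2
  exact arith_final hq hN hK hKp hl c1 (c2.trans (Nat.mul_le_mul_left _ c3))
    (I := (univ.filter fun x : V => 2 ≤ (m₁ ++ (m₂ ++ m₃)).count x).card) (by omega) c7

theorem eval_le_pow' (P : Polynomial ℕ) : ∃ k : ℕ, ∀ x : ℕ, 2 ≤ x → P.eval x ≤ x ^ k := by
  induction P using Polynomial.induction_on' with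
  | add P Q hP hQ =>
    obtain ⟨a, ha⟩ := hP
    obtain ⟨b, hb⟩ := hQ
    refine ⟨a + b + 1, fun x hx => ?_⟩
    have h1 : x ^ a ≤ x ^ (a + b) := Nat.pow_le_pow_right (by omega) (by omega)
    have h2 : x ^ b ≤ x ^ (a + b) := Nat.pow_le_pow_right (by omega) (by omega)
    have h3 := ha x hx
    have h4 := hb x hx
    rw [Polynomial.eval_add, pow_succ]
    nlinarith
  | monomial n c =>
    refine ⟨c + n, fun x hx => ?_⟩
    rw [Polynomial.eval_monomial, pow_add]
    exact Nat.mul_le_mul_right _ ((Nat.lt_two_pow_self).le.trans (Nat.pow_le_pow_left hx c))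

theorem two_mul_pow_le (a : ℕ) (ha : 1 ≤ a) : 2 * a ^ a ≤ (a + 1) ^ a := by
  have key : ∀ n : ℕ, a ^ (n + 1) + (n + 1) * a ^ n ≤ (a + 1) ^ (n + 1) := by
    intro n
    induction n with
    | zero => simp
    | succ n ih =>
      have h1 : (a ^ (n + 1) + (n + 1) * a ^ n) * (a + 1) ≤ (a + 1) ^ (n + 1) * (a + 1) :=
        Nat.mul_le_mul_right _ ih
      rw [pow_succ (a + 1) (n + 1)]
      refine le_trans ?_ h1
      have h2 : (a ^ (n + 1) + (n + 1) * a ^ n) * (a + 1) =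
          a ^ (n + 1 + 1) + (n + 1 + 1) * a ^ (n + 1) + (n + 1) * a ^ n := by ring
      omega
  obtain ⟨n, rfl⟩ : ∃ n, a = n + 1 := ⟨a - 1, by omega⟩
  have h := key n
  rw [← pow_succ'] at h
  omega

/-- The size separation for `δ = 1 - 1 / N`. -/
theorem sep (N : ℕ) (hN : 1 ≤ N) (P : Polynomial ℕ) :
    ∃ (n : ℕ) (F : Finset (Finset (Fin n × Bool))) (s : ℕ)
      (C : Fin (s + 1) → Finset (Fin n × Bool)), 0 < n ∧
      (∀ x : Fin n, ∃ D ∈ F, ∃ b : Bool, (x, b) ∈ D) ∧ IsRefutation F s C ∧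
      ∀ (s' : ℕ) (C' : Fin (s' + 1) → Finset (Fin n × Bool))
        (w : Fin (s' + 1) → Option (Fin (s' + 1) × Fin (s' + 1) × Fin n)),
        C' (Fin.last s') = ∅ → IsWitness F s' C' w →
        (∀ l, IsPath w (Fin.last s') l →
          N * (univ.filter fun x : Fin n => 2 ≤ l.count x).card + n ≤ N * n) →
        P.eval (n + F.card + (s + 1)) < s' + 1 := by
  obtain ⟨k, hk⟩ := eval_le_pow' P
  obtain ⟨q, hq⟩ : ∃ q, q + 1 = 4 * N := ⟨4 * N - 1, by omega⟩
  have hq1 : 1 ≤ q := by omega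
  obtain ⟨K', hK'⟩ : ∃ K', K' = 12 * k * (q + 1) + 1 := ⟨_, rfl⟩
  obtain ⟨K, hK⟩ : ∃ K, K = (2 * q + 1) * K' := ⟨_, rfl⟩
  obtain ⟨p, hp, hprime⟩ := Nat.exists_infinite_primes (40 * q * K ^ 2)
  have : Fact p.Prime := ⟨hprime⟩
  have hK1 : 1 ≤ K := by rw [hK, hK']; exact Nat.mul_pos (by omega) (by omega)
  have hqK : 1 ≤ q * K := Nat.mul_pos hq1 hK1
  have hKp : 40 * q * K ≤ p := le_trans (by nlinarith) hp
  have hp40 : 40 ≤ p := by nlinarith
  have hh := arith_hh hq1 hK1 hp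
  let e : Fin ((q + 1) * (p * p)) ≃ (ZMod p × ZMod p) × Fin (q + 1) :=
    (Fintype.equivFinOfCardEq (by
      rw [Fintype.card_prod, Fintype.card_prod, ZMod.card, Fintype.card_fin, mul_comm])).symm
  obtain ⟨L, hLd⟩ : ∃ L, L = (q + 1) * p := ⟨_, rfl⟩
  have hL : ∀ v, (gamq p e (4 * K) v).card ≤ L := fun v => hLd ▸ (card_gamq p e _ v).le
  obtain ⟨s, C, hs, hC⟩ := short_refutation (h := 8 * q * p * K) (W := 4 * K) (by omega) hL
  refine ⟨(q + 1) * (p * p), form (8 * q * p * K) (4 * K) (gamq p e (4 * K)), s, C, by positivity,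
    all_occurq p e (by omega) hh (by nlinarith) (by omega), hC, fun s' C' w hl hw hreg => ?_⟩
  have h1 := lower_boundq p e N K hq hK1 hp C' w hl hw (by simpa using hreg)
  have h2 := card_form (h := 8 * q * p * K) (W := 4 * K) hL
  set f := (form (8 * q * p * K) (4 * K) (gamq p e (4 * K))).card
  obtain ⟨Q, hQ⟩ : ∃ Q, Q = 2 ^ (6 * L) := ⟨_, rfl⟩
  obtain ⟨M, hM⟩ : ∃ M, M = L * p := ⟨_, rfl⟩
  have m1 : (q + 1) * (p * p) = M := by rw [hM, hLd]; ring
  have m2 : p * p ≤ M := by rw [← m1]; exact Nat.le_mul_of_pos_left _ (by omega)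
  have m3 : 1 ≤ p * p := by nlinarith
  have q0 : 1 ≤ Q := hQ ▸ Nat.one_le_two_pow
  have q2 : 2 ^ (2 * L) * 2 ^ (3 * L) ≤ Q := by
    rw [← pow_add, hQ]; exact Nat.pow_le_pow_right (by norm_num) (by omega)
  have q3 : 2 ^ L ≤ Q := hQ ▸ Nat.pow_le_pow_right (by norm_num) (by omega)
  have q4 : f ≤ (M + 1) * Q := by
    rw [← hQ] at h2
    exact h2.trans (Nat.mul_le_mul_right _ (by omega))
  have q5 : (8 * q * p * K + 1) * (4 * K * (2 ^ (2 * L) * 2 ^ (3 * L))) ≤ M * Q := by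
    rw [← mul_assoc]; exact Nat.mul_le_mul (hh.trans m2) q2
  have q6 : M ≤ M * Q := Nat.le_mul_of_pos_right _ q0
  have q7 : Q ≤ M * Q := Nat.le_mul_of_pos_left _ (by omega)
  have q8 : M + f + (s + 1) ≤ 16 * (M * Q) := by
    rw [add_mul, one_mul] at q4
    omega
  have hpL : p ≤ L := by rw [hLd]; exact Nat.le_mul_of_pos_left _ (by omega)
  have q9 : 16 * (M * Q) ≤ 2 ^ (12 * L) := by
    have a1 : L ≤ 2 ^ L := (Nat.lt_two_pow_self).le
    have a2 : 16 ≤ 2 ^ (4 * L) :=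
      le_trans (by norm_num) (Nat.pow_le_pow_right (by norm_num) (show 4 ≤ 4 * L by omega))
    calc 16 * (M * Q) ≤ 2 ^ (4 * L) * (2 ^ L * 2 ^ L * Q) := by
          rw [hM]; gcongr; exact hpL.trans a1
      _ = 2 ^ (12 * L) := by rw [hQ, ← pow_add, ← pow_add, ← pow_add]; congr 1; ring
  rw [m1]
  have h3 := hk (M + f + (s + 1)) (by omega)
  have h4 : (M + f + (s + 1)) ^ k < 2 ^ (K' * p) :=
    (Nat.pow_le_pow_left (q8.trans q9) k).trans_lt (by
      rw [← pow_mul]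
      refine Nat.pow_lt_pow_right (by norm_num) ?_
      rw [hK', hLd]; nlinarith)
  have h7 : K * p = (2 * q + 1) * (K' * p) := by rw [hK]; ring
  rw [h7, pow_mul, pow_mul (2 * q + 1)] at h1
  have h8 : (2 * (2 * q + 1) ^ (2 * q + 1)) ^ (K' * p) ≤
      ((2 * q + 2) ^ (2 * q + 1)) ^ (K' * p) :=
    Nat.pow_le_pow_left (two_mul_pow_le (2 * q + 1) (by omega)) _
  rw [mul_pow] at h8
  have h9 := Nat.le_of_mul_le_mul_right (h8.trans h1) (by positivity)
  omega

end Pool.Agent.Lib.MP_71630c_lc.Th
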