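import Mathlib
import Pool.Agent.Lib.MP_71630c_lc.Defs
import Pool.Agent.Shared.PolyTime.Enc

/-! Resolution and delta-regular resolution as proof systems on written formulas and written
proofs, and p-simulation by polynomial-time Turing machines. -/

set_option autoImplicit false

namespace Pool.Agent.Lib.MP_71630c_lc.Th

open Pool.Agent.Shared.PolyTime

/-- The bit string of a list of clauses; a clause is a list of literals `(x, b)` and the
variable `x` is written in binary. -/
def code (L : List (List (ℕ × Bool))) : List Bool :=
  encList (encList fun l : ℕ × Bool => encPair (Nat.bits l.1) [l.2]) L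

/-- The CNF formula written by a list of clauses. -/
def cnf (F : List (List (ℕ × Bool))) : Finset (Finset (ℕ × Bool)) :=
  (F.map List.toFinset).toFinset

/-- The number of variables occurring in the formula. -/
def numVars (F : List (List (ℕ × Bool))) : ℕ := (F.flatten.map Prod.fst).toFinset.card

/-- The list `π` writes a resolution refutation of `F`. -/
def Res (F π : List (List (ℕ × Bool))) : Prop :=
  ∃ (s : ℕ) (C : Fin (s + 1) → Finset (ℕ × Bool)),
    π.map List.toFinset = List.ofFn C ∧ IsRefutation (cnf F) s C

/-- The list `π` writes a `δ`-regular refutation of `F`: for some DAG structure, on every path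
from the final empty clause at most `δ n` variables are resolved on more than once. -/
def Reg (δ : ℝ) (F π : List (List (ℕ × Bool))) : Prop :=
  ∃ (s : ℕ) (C : Fin (s + 1) → Finset (ℕ × Bool)),
    π.map List.toFinset = List.ofFn C ∧ IsRefutation (cnf F) s C ∧
      ∃ w, IsWitness (cnf F) s C w ∧ ∀ l, IsPath w (Fin.last s) l →
        ((l.toFinset.filter fun x => 2 ≤ l.count x).card : ℝ) ≤ δ * numVars F

/-- `P` p-simulates `Q`: a function on bit strings computed in polynomial time sends the code of
every pair (formula, `Q`-refutation of it) to the code of a `P`-refutation of the same formula. -/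
def PSim (P Q : List (List (ℕ × Bool)) → List (List (ℕ × Bool)) → Prop) : Prop :=
  ∃ f : List Bool → List Bool, Nonempty (Turing.TM2ComputableInPolyTime id id f) ∧
    ∀ F π, Q F π → ∃ π', P F π' ∧ f (encPair (code F) (code π)) = code π'

end Pool.Agent.Lib.MP_71630c_lc.Th
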