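import Pool.Agent.Lib.MP_71630c_lc.Lines

/-! The supports with `q + 1` variables per point, and the random restriction. -/

set_option autoImplicit false

namespace Pool.Agent.Lib.MP_71630c_lc.Th

open Finset

set_option linter.unusedSectionVars false

section Fib

variable {V : Type} [DecidableEq V] [Fintype V] {Pt : Type} [DecidableEq Pt] [Fintype Pt] {q : ℕ}
  (e : V ≃ Pt × Fin (q + 1))

/-- The variables above a set of points. -/
def fibq (X : Finset Pt) : Finset V := univ.filter fun y => (e y).1 ∈ X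

/-- The restricted variables. -/
def rsetq (ρ : Pt → Fin (q + 1) × Bool) : Finset V :=
  univ.filter fun y => (e y).2 = (ρ (e y).1).1

theorem mem_fibq {X : Finset Pt} {y : V} : y ∈ fibq e X ↔ (e y).1 ∈ X := by simp [fibq]

theorem mem_rsetq {ρ : Pt → Fin (q + 1) × Bool} {y : V} :
    y ∈ rsetq e ρ ↔ (e y).2 = (ρ (e y).1).1 := by
  simp [rsetq]

theorem card_fibq (X : Finset Pt) : (fibq e X).card = (q + 1) * X.card := by
  have : (fibq e X).map e.toEmbedding = X ×ˢ univ := by
    ext ⟨x, j⟩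
    simp [mem_map_equiv, mem_fibq]
  rw [← card_map e.toEmbedding, this, card_product, card_univ, Fintype.card_fin, mul_comm]

theorem card_fibq_inter (X : Finset Pt) (ρ : Pt → Fin (q + 1) × Bool) :
    (fibq e X ∩ rsetq e ρ).card = X.card := by
  symm
  apply card_bij (fun x _ => e.symm (x, (ρ x).1))
  · intro x hx
    simp [mem_fibq, mem_rsetq, hx]
  · intro x _ y _ h
    simpa using (Prod.ext_iff.mp (e.symm.injective h)).1
  · intro y hy
    obtain ⟨h1, h2⟩ := mem_inter.mp hy
    refine ⟨(e y).1, (mem_fibq e).mp h1, ?_⟩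
    rw [← (mem_rsetq e).mp h2]
    simp

theorem card_fibq_sdiff (X : Finset Pt) (ρ : Pt → Fin (q + 1) × Bool) :
    (fibq e X \ rsetq e ρ).card = q * X.card := by
  have := card_sdiff_add_card_inter (fibq e X) (rsetq e ρ)
  rw [card_fibq, card_fibq_inter, add_mul, one_mul] at this
  omega

theorem fibq_inter (X Y : Finset Pt) : fibq e X ∩ fibq e Y = fibq e (X ∩ Y) := by
  ext y; simp [mem_fibq]

/-- The points touched by a clause. -/
def tchq (D : Finset (V × Bool)) : Finset Pt := D.image fun p => (e p.1).1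

theorem vars_subset_fibq (D : Finset (V × Bool)) : vars D ⊆ fibq e (tchq e D) := by
  intro y hy
  obtain ⟨p, hp, rfl⟩ := mem_image.mp hy
  exact (mem_fibq e).mpr (mem_image_of_mem _ hp)

theorem card_unsatq (D : Finset (V × Bool)) (w : ℕ) (hw : w ≤ (tchq e D).card) :
    (univ.filter fun ρ : Pt → Fin (q + 1) × Bool =>
      ∀ p ∈ D, ρ (e p.1).1 ≠ ((e p.1).2, p.2)).card ≤
      (2 * q + 1) ^ w * (2 * q + 2) ^ (Fintype.card Pt - w) := by
  obtain ⟨X, hX, rfl⟩ := exists_subset_card_eq hw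
  have hch : ∀ x : Pt, ∃ o : Fin (q + 1) × Bool,
      x ∈ X → ∃ p ∈ D, (e p.1).1 = x ∧ ((e p.1).2, p.2) = o := by
    intro x
    by_cases hx : x ∈ X
    · obtain ⟨p, hp, h⟩ := mem_image.mp (hX hx)
      exact ⟨_, fun _ => ⟨p, hp, h, rfl⟩⟩
    · exact ⟨(0, true), fun h => absurd h hx⟩
  choose o ho using hch
  have hsub : (univ.filter fun ρ : Pt → Fin (q + 1) × Bool =>
      ∀ p ∈ D, ρ (e p.1).1 ≠ ((e p.1).2, p.2)) ⊆
      Fintype.piFinset fun x => if x ∈ X then univ.erase (o x) else univ := by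
    intro ρ hρ
    rw [Fintype.mem_piFinset]
    intro x
    split_ifs with hx
    · obtain ⟨p, hp, h1, h2⟩ := ho x hx
      refine mem_erase.mpr ⟨?_, mem_univ _⟩
      rw [← h2, ← h1]
      exact (mem_filter.mp hρ).2 p hp
    · exact mem_univ _
  refine (card_le_card hsub).trans (le_of_eq ?_)
  rw [Fintype.card_piFinset]
  have hu : (univ : Finset (Fin (q + 1) × Bool)).card = 2 * q + 2 := by
    rw [card_univ, Fintype.card_prod, Fintype.card_fin, Fintype.card_bool]; ring
  have : ∀ x, (if x ∈ X then univ.erase (o x) else (univ : Finset (Fin (q + 1) × Bool))).card =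
      if x ∈ X then 2 * q + 1 else 2 * q + 2 := by
    intro x
    split_ifs
    · rw [card_erase_of_mem (mem_univ _), hu]; rfl
    · exact hu
  simp only [this]
  rw [prod_ite, prod_const, prod_const, filter_mem_eq_inter, univ_inter, filter_not,
    filter_mem_eq_inter, univ_inter, card_univ_sdiff]

theorem exists_restrictionq {s : ℕ} (C : Fin (s + 1) → Finset (V × Bool)) (w : ℕ)
    (hs : (s + 1) * (2 * q + 1) ^ w < (2 * q + 2) ^ w) :
    ∃ ρ : Pt → Fin (q + 1) × Bool, ∀ i, (∀ p ∈ C i, ρ (e p.1).1 ≠ ((e p.1).2, p.2)) →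
      (tchq e (C i)).card < w := by
  by_contra hcon
  push Not at hcon
  have hw : w ≤ Fintype.card Pt := by
    obtain ⟨i, -, hi⟩ := hcon fun _ => (0, true)
    exact hi.trans (card_le_univ _)
  have hsub : (univ : Finset (Pt → Fin (q + 1) × Bool)) ⊆
      (univ.filter fun i => w ≤ (tchq e (C i)).card).biUnion fun i =>
        univ.filter fun ρ => ∀ p ∈ C i, ρ (e p.1).1 ≠ ((e p.1).2, p.2) := by
    intro ρ _
    obtain ⟨i, h1, h2⟩ := hcon ρ
    exact mem_biUnion.mpr ⟨i, mem_filter.mpr ⟨mem_univ _, h2⟩, mem_filter.mpr ⟨mem_univ _, h1⟩⟩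
  have h1 := (card_le_card hsub).trans (card_biUnion_le_card_mul _ _ _
    fun i hi => card_unsatq e (C i) w (mem_filter.mp hi).2)
  have h2 : (univ.filter fun i => w ≤ (tchq e (C i)).card).card ≤ s + 1 :=
    (card_le_univ _).trans (by simp)
  have h3 : (univ : Finset (Pt → Fin (q + 1) × Bool)).card =
      (2 * q + 2) ^ w * (2 * q + 2) ^ (Fintype.card Pt - w) := by
    rw [← pow_add, Nat.add_sub_cancel' hw, card_univ, Fintype.card_fun, Fintype.card_prod,
      Fintype.card_fin, Fintype.card_bool]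
    congr 1; ring
  have h4 : 0 < (2 * q + 2) ^ (Fintype.card Pt - w) := by positivity
  have h5 := h1.trans (Nat.mul_le_mul_right _ h2)
  rw [h3, ← mul_assoc] at h5
  exact absurd (Nat.le_of_mul_le_mul_right h5 h4) (not_le.mpr hs)

end Fib

section Gam

variable {V : Type} [DecidableEq V] [Fintype V] (p : ℕ) [Fact p.Prime] {q : ℕ}
  (e : V ≃ (ZMod p × ZMod p) × Fin (q + 1))

/-- The support of a vertex. -/
def gamq (W : ℕ) (v : ℕ × ℕ) : Finset V := fibq e (line p (v.1 * W + v.2))

theorem card_gamq (W : ℕ) (v : ℕ × ℕ) : (gamq p e W v).card = (q + 1) * p := by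
  rw [gamq, card_fibq, card_line]

theorem all_occurq {h W : ℕ} (hW : 0 < W) (hh : (h + 1) * W ≤ p * p) (hp : p ≤ h) (hp3 : 3 ≤ p)
    (y : V) : ∃ D ∈ form h W (gamq p e W), ∃ b, (y, b) ∈ D := by
  set n := ((e y).1.2).val with hn
  have hnp : n < p := ZMod.val_lt _
  set v : ℕ × ℕ := (n / W, n % W) with hv
  have hvv : v ∈ verts h W :=
    mem_verts.mpr ⟨(Nat.div_le_self _ _).trans (by omega), Nat.mod_lt _ hW⟩
  have hy : y ∈ gamq p e W v := by
    rw [gamq, mem_fibq, mem_line]
    simp only [hv, Nat.div_add_mod' n W, Nat.div_eq_of_lt hnp]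
    simp [hn]
  have hnot : v ∉ ch h W v := fun h => by have := (mem_ch.mp h).2.1; omega
  obtain ⟨a, -, h2, h3⟩ := recolor (G := gamq p e W) ∅ (insert v (ch h W v)) (fun _ => True) {v}
    (by simp) (by
      intro u hu
      rw [mem_singleton.mp hu]
      have c4 : ((ch h W v).biUnion fun u => gamq p e W u ∩ gamq p e W v).card ≤
          (ch h W v).card * (q + 1) := by
        apply card_biUnion_le_card_mul
        intro u hu
        rw [gamq, gamq, fibq_inter, card_fibq]
        have := line_overlap p hh (ch_subset hvv hu) hvv (by rintro rfl; exact hnot hu)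
        exact (Nat.mul_le_mul_left _ this).trans (by omega)
      have c5 := card_ch h W v
      obtain ⟨z, hz1, hz2⟩ := exists_mem_notMem_of_card_lt_card
        (s := (ch h W v).biUnion fun u => gamq p e W u ∩ gamq p e W v) (t := gamq p e W v)
        (by rw [card_gamq]; nlinarith)
      refine ⟨z, hz1, notMem_empty _, fun u hu huv hzu => hz2 ?_⟩
      exact mem_biUnion.mpr ⟨u, (mem_insert.mp hu).resolve_left huv, mem_inter.mpr ⟨hzu, hz1⟩⟩)
    (fun _ => false)
  refine ⟨cl (supp h W (gamq p e W) v) a, mem_form.mpr (Or.inl ⟨v, hvv, a, ⟨?_, ?_⟩, rfl⟩), !a y,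
    mem_cl.mpr ⟨mem_union_left _ hy, rfl⟩⟩
  · exact (h2 v (mem_singleton_self _)).mpr trivial
  · intro u hu
    rw [h3 u (mem_insert_of_mem hu) (fun h => hnot (by rwa [mem_singleton.mp h] at hu))]
    simp [par]

theorem overlapq {h W : ℕ} (hh : (h + 1) * W ≤ p * p) (ρ : ZMod p × ZMod p → Fin (q + 1) × Bool)
    {u v : ℕ × ℕ} (hu : u ∈ verts h W) (hv : v ∈ verts h W) (huv : u ≠ v) :
    ((gamq p e W u \ rsetq e ρ) ∩ (gamq p e W v \ rsetq e ρ)).card ≤ q := by
  have h1 := line_overlap p hh hu hv huv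
  have h2 : (gamq p e W u \ rsetq e ρ) ∩ (gamq p e W v \ rsetq e ρ) =
      fibq e (line p (u.1 * W + u.2) ∩ line p (v.1 * W + v.2)) \ rsetq e ρ := by
    ext y
    simp only [mem_inter, mem_sdiff, gamq, mem_fibq]
    tauto
  rw [h2, card_fibq_sdiff]
  exact (Nat.mul_le_mul_left _ h1).trans (by omega)

theorem near_boundq {h W sg l : ℕ} (hh : (h + 1) * W ≤ p * p) (hl : l + sg = q * p)
    (ρ : ZMod p × ZMod p → Fin (q + 1) × Bool) (K : Finset V) (T : Finset (ℕ × ℕ))
    (hT : T ⊆ (verts h W).filter fun v => ((gamq p e W v \ rsetq e ρ) \ K).card ≤ sg) :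
    (T.card * l) ^ 2 ≤ (K \ rsetq e ρ).card * (T.card * (q * p) + T.card * T.card * q) := by
  have hc : ∀ v, (gamq p e W v \ rsetq e ρ).card = q * p := fun v => by
    rw [gamq, card_fibq_sdiff, card_line]
  apply corradi T (fun v => (gamq p e W v \ rsetq e ρ) ∩ K)
  · intro v _ y hy
    obtain ⟨h1, h2⟩ := mem_inter.mp hy
    exact mem_sdiff.mpr ⟨h2, (mem_sdiff.mp h1).2⟩
  · intro v hv
    have h1 := (mem_filter.mp (hT hv)).2
    have h2 := card_sdiff_add_card_inter (gamq p e W v \ rsetq e ρ) K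
    rw [hc] at h2
    omega
  · intro v _
    exact (card_le_card inter_subset_left).trans (hc v).le
  · intro u hu v hv huv
    refine (card_le_card ?_).trans
      (overlapq p e hh ρ (mem_filter.mp (hT hu)).1 (mem_filter.mp (hT hv)).1 huv)
    exact inter_subset_inter inter_subset_left inter_subset_left

end Gam

end Pool.Agent.Lib.MP_71630c_lc.Th
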