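import Pool.Agent.Lib.MP_71630c_lc.Th.Defs
import Pool.Agent.Lib.MP_71630c_lc.Th.Lower
import Pool.Agent.Shared.TM2PF.OfTM

/-! Renaming of variables, lengths of codes, and the two directions of the threshold theorem. -/

set_option autoImplicit false
set_option linter.unusedSectionVars false

namespace Pool.Agent.Lib.MP_71630c_lc.Th

open Finset Pool.Agent.Shared.PolyTime Pool.Agent.Shared.NP

section Wit

variable {V : Type} [DecidableEq V] {F : Finset (Finset (V × Bool))} {s : ℕ}
  {C : Fin (s + 1) → Finset (V × Bool)} {w : Fin (s + 1) → Option (Fin (s + 1) × Fin (s + 1) × V)}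

theorem lit_mem (hw : IsWitness F s C w) (i : Fin (s + 1)) : ∀ z ∈ C i, ∃ D ∈ F, z ∈ D := by
  induction i using WellFoundedLT.induction with
  | ind i ih =>
    intro z hz
    rcases h : w i with _ | ⟨j, k, x⟩
    · exact ⟨_, (hw i).1 h, hz⟩
    · obtain ⟨hj, hk, A, B, -, -, hA, hB, hC⟩ := (hw i).2 j k x h
      rw [hC] at hz
      rcases mem_union.1 hz with hz | hz
      · exact ih j hj z (hA ▸ mem_insert_of_mem hz)
      · exact ih k hk z (hB ▸ mem_insert_of_mem hz)

theorem pivot_mem (hw : IsWitness F s C w) {i j k : Fin (s + 1)} {x : V}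
    (h : w i = some (j, k, x)) : ∃ D ∈ F, (x, true) ∈ D := by
  obtain ⟨-, -, A, B, -, -, hA, -⟩ := (hw i).2 j k x h
  exact lit_mem hw j _ (hA ▸ mem_insert_self _ _)

theorem path_mem (hw : IsWitness F s C w) {i : Fin (s + 1)} {l : List V} (h : IsPath w i l) :
    ∀ x ∈ l, ∃ D ∈ F, (x, true) ∈ D := by
  induction h with
  | leaf i _ => simp
  | left i j k x l h _ ih =>
    intro y hy
    rcases List.mem_cons.1 hy with rfl | hy
    · exact pivot_mem hw h
    · exact ih y hy
  | right i j k x l h _ ih =>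
    intro y hy
    rcases List.mem_cons.1 hy with rfl | hy
    · exact pivot_mem hw h
    · exact ih y hy

theorem exists_witness (h : IsRefutation F s C) : ∃ w, IsWitness F s C w := by
  have : ∀ i, ∃ o : Option (Fin (s + 1) × Fin (s + 1) × V), (o = none → C i ∈ F) ∧
      ∀ j k x, o = some (j, k, x) → j < i ∧ k < i ∧ Resolves (C j) (C k) (C i) x := by
    intro i
    rcases h.2 i with h1 | ⟨j, hj, k, hk, x, hx⟩
    · exact ⟨none, fun _ => h1, fun _ _ _ h => by simp at h⟩
    · refine ⟨some (j, k, x), fun h => by simp at h, fun j' k' x' h => ?_⟩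
      simp only [Option.some.injEq, Prod.mk.injEq] at h
      obtain ⟨rfl, rfl, rfl⟩ := h
      exact ⟨hj, hk, hx⟩
  choose w hw using this
  exact ⟨w, hw⟩

end Wit

section Ren

variable {V V' : Type} [DecidableEq V] [DecidableEq V'] {φ : V → V'}

/-- The renamed clause. -/
def im (φ : V → V') (D : Finset (V × Bool)) : Finset (V' × Bool) := D.image fun z => (φ z.1, z.2)

theorem mem_im (hφ : Function.Injective φ) {D : Finset (V × Bool)} {x : V} {b : Bool} :
    (φ x, b) ∈ im φ D ↔ (x, b) ∈ D := by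
  simp only [im, mem_image, Prod.mk.injEq]
  constructor
  · rintro ⟨⟨y, c⟩, h, h1, rfl⟩
    rwa [← hφ h1]
  · intro h; exact ⟨_, h, rfl, rfl⟩

theorem push (hφ : Function.Injective φ) {F : Finset (Finset (V × Bool))} {s : ℕ}
    {C : Fin (s + 1) → Finset (V × Bool)} (h : IsRefutation F s C) :
    IsRefutation (F.image (im φ)) s fun i => im φ (C i) := by
  refine ⟨by simp [h.1, im], fun i => ?_⟩
  rcases h.2 i with h1 | ⟨j, hj, k, hk, x, A, B, hA, hB, e1, e2, e3⟩
  · exact Or.inl (mem_image_of_mem _ h1)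
  · refine Or.inr ⟨j, hj, k, hk, φ x, im φ A, im φ B, fun h => hA ((mem_im hφ).1 h),
      fun h => hB ((mem_im hφ).1 h), ?_, ?_, ?_⟩
    · simp only [e1, im, image_insert]
    · simp only [e2, im, image_insert]
    · simp only [e3, im, image_union]

variable [Fintype V]

/-- The clause read back along the renaming. -/
def pre (φ : V → V') (D : Finset (V' × Bool)) : Finset (V × Bool) :=
  univ.filter fun z => (φ z.1, z.2) ∈ D

theorem mem_pre {D : Finset (V' × Bool)} {x : V} {b : Bool} :
    (x, b) ∈ pre φ D ↔ (φ x, b) ∈ D := by simp [pre]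

theorem pre_insert (hφ : Function.Injective φ) (x : V) (b : Bool) (A : Finset (V' × Bool)) :
    pre φ (insert (φ x, b) A) = insert (x, b) (pre φ A) := by
  ext ⟨y, c⟩
  simp only [mem_pre, mem_insert, Prod.mk.injEq, hφ.eq_iff]

theorem pull [Nonempty V] (hφ : Function.Injective φ) {F : Finset (Finset (V × Bool))} {s : ℕ}
    {C : Fin (s + 1) → Finset (V' × Bool)}
    {w : Fin (s + 1) → Option (Fin (s + 1) × Fin (s + 1) × V')}
    (hw : IsWitness (F.image (im φ)) s C w) :
    ∃ w', IsWitness F s (fun i => pre φ (C i)) w' ∧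
      ∀ i l, IsPath w' i l → IsPath w i (l.map φ) := by
  let w' : Fin (s + 1) → Option (Fin (s + 1) × Fin (s + 1) × V) := fun i =>
    (w i).map fun t => (t.1, t.2.1, Function.invFun φ t.2.2)
  have key : ∀ i j k x, w' i = some (j, k, x) → w i = some (j, k, φ x) := by
    intro i j k x h
    obtain ⟨⟨j', k', x'⟩, h1, h2⟩ := Option.map_eq_some_iff.1 h
    simp only [Prod.mk.injEq] at h2
    obtain ⟨rfl, rfl, rfl⟩ := h2
    obtain ⟨D, hD, hx⟩ := pivot_mem hw h1
    obtain ⟨E, -, rfl⟩ := mem_image.1 hD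
    obtain ⟨z, -, hz⟩ := mem_image.1 hx
    rw [h1, Function.invFun_eq ⟨z.1, (Prod.ext_iff.1 hz).1⟩]
  refine ⟨w', fun i => ⟨fun h => ?_, fun j k x h => ?_⟩, fun i l h => ?_⟩
  · obtain ⟨E, hE, he⟩ := mem_image.1 ((hw i).1 (Option.map_eq_none_iff.1 h))
    have : pre φ (C i) = E := by
      ext ⟨y, c⟩
      rw [mem_pre, ← he, mem_im hφ]
    beta_reduce
    rwa [this]
  · obtain ⟨hj, hk, A, B, hA, hB, e1, e2, e3⟩ := (hw i).2 j k _ (key i j k x h)
    refine ⟨hj, hk, pre φ A, pre φ B, fun h => hA (mem_pre.1 h), fun h => hB (mem_pre.1 h),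
      ?_, ?_, ?_⟩
    · beta_reduce; rw [e1, pre_insert hφ]
    · beta_reduce; rw [e2, pre_insert hφ]
    · beta_reduce
      ext ⟨y, c⟩
      simp only [e3, mem_pre, mem_union]
  · induction h with
    | leaf i h => exact IsPath.leaf i (Option.map_eq_none_iff.1 h)
    | left i j k x l h _ ih => exact IsPath.left i j k _ _ (key i j k x h) ih
    | right i j k x l h _ ih => exact IsPath.right i j k _ _ (key i j k x h) ih

end Ren

theorem len_pair (x y : List Bool) : (encPair x y).length = 2 * x.length + 1 + y.length := by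
  simp [encPair]; omega

theorem encList_le {α : Type} (e : α → List Bool) (l : List α) (B : ℕ)
    (h : ∀ a ∈ l, (e a).length ≤ B) : (encList e l).length ≤ l.length * (2 * B + 1) := by
  induction l with
  | nil => simp [encList]
  | cons a l ih =>
    have h1 := h a (by simp)
    have h2 := ih fun b hb => h b (by simp [hb])
    rw [encList, len_pair, List.length_cons, add_mul]
    omega

theorem le_encList {α : Type} (e : α → List Bool) (l : List α) :
    l.length ≤ (encList e l).length := by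
  induction l with
  | nil => simp
  | cons a l ih => rw [encList, len_pair, List.length_cons]; omega

theorem code_le (L : List (List (ℕ × Bool))) (x : ℕ) (h1 : L.length ≤ x)
    (h2 : ∀ D ∈ L, D.length ≤ 2 * x ∧ ∀ z ∈ D, z.1 ≤ x) :
    (code L).length ≤ x * (2 * (2 * x * (2 * (2 * x + 2) + 1)) + 1) := by
  refine (encList_le _ L (2 * x * (2 * (2 * x + 2) + 1)) fun D hD => ?_).trans
    (Nat.mul_le_mul_right _ h1)
  refine (encList_le _ D (2 * x + 2) fun z hz => ?_).trans
    (Nat.mul_le_mul_right _ (h2 D hD).1)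
  have h3 : (Nat.bits z.1).length ≤ x := by
    rw [Nat.size_eq_bits_len]
    exact (size_le_self _).trans ((h2 D hD).2 z hz)
  rw [len_pair, List.length_singleton]
  omega

theorem im_small {n x : ℕ} (h : n ≤ x) (D : Finset (Fin n × Bool)) :
    (im Fin.val D).toList.length ≤ 2 * x ∧ ∀ z ∈ (im Fin.val D).toList, z.1 ≤ x := by
  constructor
  · rw [length_toList]
    refine card_image_le.trans ((card_le_univ _).trans ?_)
    rw [Fintype.card_prod, Fintype.card_fin, Fintype.card_bool]
    omega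
  · intro z hz
    obtain ⟨y, -, rfl⟩ := mem_image.1 (mem_toList.1 hz)
    exact y.1.2.le.trans h

/-- For `δ < 1` there is no p-simulation. -/
theorem not_psim {δ : ℝ} (hδ : δ < 1) : ¬ PSim (Reg δ) Res := by
  rintro ⟨f, hf, hsim⟩
  obtain ⟨G, hG, hGf⟩ := raw_of_tm2 id id f hf
  obtain ⟨p, hp⟩ := hG.size
  obtain ⟨m, hm⟩ := exists_nat_one_div_lt (sub_pos.2 hδ)
  obtain ⟨n, F, s, C, hn, hall, hC, hlow⟩ := sep (m + 1) (by omega)
    (p.comp (3 * (Polynomial.X * (2 * (2 * Polynomial.X * (2 * (2 * Polynomial.X + 2) + 1)) + 1))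
      + 1))
  have : Nonempty (Fin n) := ⟨⟨0, hn⟩⟩
  let Fl : List (List (ℕ × Bool)) := F.toList.map fun D => (im Fin.val D).toList
  let πl : List (List (ℕ × Bool)) := List.ofFn fun i => (im Fin.val (C i)).toList
  have e1 : cnf Fl = F.image (im Fin.val) := by
    ext D
    simp [cnf, Fl]
  have e2 : numVars Fl = n := by
    have : (Fl.flatten.map Prod.fst).toFinset = (univ : Finset (Fin n)).image Fin.val := by
      ext y
      simp only [List.mem_toFinset, List.mem_map, List.mem_flatten, mem_image, mem_univ, true_and,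
        Fl, mem_toList]
      constructor
      · rintro ⟨z, ⟨_, ⟨D, -, rfl⟩, hz⟩, rfl⟩
        obtain ⟨u, -, rfl⟩ := mem_image.1 (mem_toList.1 hz)
        exact ⟨u.1, rfl⟩
      · rintro ⟨x, rfl⟩
        obtain ⟨D, hD, b, hb⟩ := hall x
        exact ⟨(x.val, b), ⟨_, ⟨D, hD, rfl⟩, mem_toList.2 ((mem_im Fin.val_injective).2 hb)⟩, rfl⟩
    rw [numVars, this, card_image_of_injective _ Fin.val_injective, card_univ, Fintype.card_fin]
  have e3 : Res Fl πl := ⟨s, fun i => im Fin.val (C i), by
    simp only [πl, List.map_ofFn]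
    congr 1
    funext i
    simp, e1 ▸ push Fin.val_injective hC⟩
  obtain ⟨π', ⟨s', C', hπ, hR, w, hw, hreg⟩, hout⟩ := hsim Fl πl e3
  rw [e1] at hw
  rw [e2] at hreg
  obtain ⟨w', hw', hpath⟩ := pull Fin.val_injective hw
  have h1 := hlow s' _ w' (by rw [hR.1]; simp [pre]) hw' (fun l hl => by
    have a1 := hreg _ (hpath _ l hl)
    have a2 : (univ.filter fun x : Fin n => 2 ≤ l.count x).card ≤
        ((l.map Fin.val).toFinset.filter fun x => 2 ≤ (l.map Fin.val).count x).card := by
      refine card_le_card_of_injOn Fin.val (fun x hx => ?_) Fin.val_injective.injOn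
      have b1 := (mem_filter.1 (mem_coe.1 hx)).2
      refine mem_coe.2 (mem_filter.2 ⟨List.mem_toFinset.2 (List.mem_map_of_mem
        (List.count_pos_iff.1 (by omega))), ?_⟩)
      rwa [List.count_map_of_injective _ _ Fin.val_injective]
    have a3 : ((univ.filter fun x : Fin n => 2 ≤ l.count x).card : ℝ) ≤ δ * n :=
      le_trans (by exact_mod_cast a2) a1
    have a4 : (0 : ℝ) < (m : ℝ) + 1 := by positivity
    have a5 : ((m : ℝ) + 1) * δ + 1 ≤ (m : ℝ) + 1 := by
      rw [div_lt_iff₀ a4] at hm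
      nlinarith
    have a6 : (0 : ℝ) ≤ n := Nat.cast_nonneg n
    have a7 := mul_le_mul_of_nonneg_left a3 a4.le
    have a8 := mul_le_mul_of_nonneg_right a5 a6
    have a9 : ((m : ℝ) + 1) * ((univ.filter fun x : Fin n => 2 ≤ l.count x).card : ℝ) + n ≤
        ((m : ℝ) + 1) * n := by nlinarith
    exact_mod_cast a9)
  obtain ⟨x, hx⟩ : ∃ x, x = n + F.card + (s + 1) := ⟨_, rfl⟩
  rw [← hx] at h1
  have l1 := code_le Fl x (by simp only [Fl, List.length_map, length_toList]; omega) (by
    intro D hD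
    obtain ⟨E, -, rfl⟩ := List.mem_map.1 hD
    exact im_small (by omega) E)
  have l2 := code_le πl x (by simp only [πl, List.length_ofFn]; omega) (by
    intro D hD
    obtain ⟨i, rfl⟩ := List.mem_ofFn.1 hD
    exact im_small (by omega) _)
  have h2 := hp ⟨encPair (code Fl) (code πl)⟩
    (3 * (x * (2 * (2 * x * (2 * (2 * x + 2) + 1)) + 1)) + 1) (by
      change (encPair (code Fl) (code πl)).length ≤ _
      rw [len_pair]
      omega)
  have h3 := hGf (encPair (code Fl) (code πl))
  simp only [id] at h3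
  rw [h3, hout] at h2
  have h4 : s' + 1 ≤ (code π').length := by
    have := congrArg List.length hπ
    rw [List.length_map, List.length_ofFn] at this
    exact this ▸ le_encList _ π'
  simp only [Polynomial.eval_comp, Polynomial.eval_add, Polynomial.eval_mul, Polynomial.eval_X,
    Polynomial.eval_ofNat, Polynomial.eval_one] at h1
  exact absurd (h4.trans h2) (not_le.2 h1)

theorem psim_of_imp {P Q : List (List (ℕ × Bool)) → List (List (ℕ × Bool)) → Prop}
    (h : ∀ F π, Q F π → P F π) : PSim P Q := by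
  obtain ⟨G, hG, sG⟩ : PF fun a : Raw × Raw => a.2 := by fun_prop
  exact ⟨G, hG.tm2 id id G fun _ => rfl, fun F π hQ => ⟨π, h F π hQ, sG (⟨code F⟩, ⟨code π⟩)⟩⟩

theorem reg_of_res {δ : ℝ} (hδ : 1 ≤ δ) (F π : List (List (ℕ × Bool))) (h : Res F π) :
    Reg δ F π := by
  obtain ⟨s, C, h1, h2⟩ := h
  obtain ⟨w, hw⟩ := exists_witness h2
  refine ⟨s, C, h1, h2, w, hw, fun l hl => ?_⟩
  have a1 : (l.toFinset.filter fun x => 2 ≤ l.count x).card ≤ numVars F := by
    refine card_le_card fun x hx => ?_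
    obtain ⟨D, hD, hx⟩ := path_mem hw hl x (List.mem_toFinset.1 (mem_filter.1 hx).1)
    obtain ⟨E, hE, rfl⟩ := List.mem_map.1 (List.mem_toFinset.1 hD)
    exact List.mem_toFinset.2 (List.mem_map.2
      ⟨(x, true), List.mem_flatten.2 ⟨E, hE, List.mem_toFinset.1 hx⟩, rfl⟩)
  have a2 : (0 : ℝ) ≤ numVars F := Nat.cast_nonneg _
  have a3 : ((l.toFinset.filter fun x => 2 ≤ l.count x).card : ℝ) ≤ numVars F := by
    exact_mod_cast a1
  nlinarith

end Pool.Agent.Lib.MP_71630c_lc.Th
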